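import Pool.Agent.MP_670f9a_nt.H13.Spec2

/-! Upper and lower bounds for Gram determinants. -/

namespace Pool.Agent.MP_670f9a_nt.H18

open Pool.Agent.MP_670f9a_nt.NP
open scoped Matrix

section core

variable {𝕜 : Type} [RCLike 𝕜] {κ ι : Type} [Fintype κ] [LinearOrder κ] [Fintype ι]

theorem exists_coef {E : Type} [AddCommGroup E] [Module 𝕜 E] (v : κ → E) (k : κ) (x : E)
    (hx : x ∈ Submodule.span 𝕜 (v '' Set.Iio k)) :
    ∃ c : κ → 𝕜, (∀ l, k ≤ l → c l = 0) ∧ x = ∑ l, c l • v l := by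
  induction hx using Submodule.span_induction with
  | mem x hx =>
    obtain ⟨l, hl, rfl⟩ := hx
    refine ⟨Pi.single l 1, fun m hm => ?_, ?_⟩
    · exact Pi.single_eq_of_ne (fun e => absurd (lt_of_lt_of_le hl hm) (by simp [e])) _
    · simp [Pi.single_apply]
  | zero => exact ⟨0, fun _ _ => rfl, by simp⟩
  | add x y _ _ hx hy =>
    obtain ⟨c, hc, rfl⟩ := hx
    obtain ⟨d, hd, rfl⟩ := hy
    refine ⟨c + d, fun l hl => by simp [hc l hl, hd l hl], ?_⟩
    simp [add_smul, Finset.sum_add_distrib]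
  | smul a x _ hx =>
    obtain ⟨c, hc, rfl⟩ := hx
    refine ⟨a • c, fun l hl => by simp [hc l hl], ?_⟩
    simp [Finset.smul_sum, mul_smul]

/-- A unitriangular change of the rows makes them orthogonal and not longer. -/
theorem exists_tri (B : Matrix κ ι 𝕜) : ∃ T : Matrix κ κ 𝕜, (∀ k, T k k = 1) ∧
    (∀ k l, k < l → T k l = 0) ∧
    (∀ k, ∑ i, ‖(T * B) k i‖ ^ 2 ≤ ∑ i, ‖B k i‖ ^ 2) ∧
    (B * Bᴴ).det = ((∏ k, ∑ i, ‖(T * B) k i‖ ^ 2 : ℝ) : 𝕜) := by
  classical
  let v : κ → EuclideanSpace 𝕜 ι := fun k => WithLp.toLp 2 (B k)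
  let W : κ → Submodule 𝕜 (EuclideanSpace 𝕜 ι) := fun k => Submodule.span 𝕜 (v '' Set.Iio k)
  let g : κ → EuclideanSpace 𝕜 ι := fun k => v k - (W k).starProjection (v k)
  have hc : ∀ k, ∃ c : κ → 𝕜, (∀ l, k ≤ l → c l = 0) ∧
      (W k).starProjection (v k) = ∑ l, c l • v l := fun k =>
    exists_coef v k _ ((W k).starProjection_apply_mem (v k))
  choose c hc0 hc1 using hc
  let T : Matrix κ κ 𝕜 := 1 - Matrix.of c
  have hT1 : ∀ k, T k k = 1 := fun k => by simp [T, hc0 k k le_rfl]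
  have hT0 : ∀ k l, k < l → T k l = 0 := fun k l h => by
    simp [T, hc0 k l h.le, Matrix.one_apply_ne h.ne]
  have hg : ∀ k i, (T * B) k i = g k i := by
    intro k i
    simp only [T, g, hc1 k]
    rw [Matrix.sub_mul, Matrix.one_mul, Matrix.sub_apply, Matrix.mul_apply]
    simp [v]
  have hn : ∀ k, ∑ i, ‖(T * B) k i‖ ^ 2 = ‖g k‖ ^ 2 := fun k => by
    rw [EuclideanSpace.norm_sq_eq]
    simp only [hg]
  have hmem : ∀ k l, l < k → g l ∈ W k := by
    intro k l h
    refine Submodule.sub_mem _ (Submodule.subset_span ⟨l, h, rfl⟩) ?_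
    exact Submodule.span_mono (Set.image_mono (Set.Iio_subset_Iio h.le))
      ((W l).starProjection_apply_mem (v l))
  have horth : ∀ k, g k ∈ (W k)ᗮ := fun k => (W k).sub_starProjection_mem_orthogonal (v k)
  have ho : ∀ k l, k ≠ l → inner 𝕜 (g k) (g l) = 0 := by
    intro k l h
    rcases lt_or_gt_of_ne h with h | h
    · exact Submodule.inner_right_of_mem_orthogonal (hmem l k h) (horth l)
    · exact Submodule.inner_left_of_mem_orthogonal (hmem k l h) (horth k)
  refine ⟨T, hT1, hT0, fun k => ?_, ?_⟩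
  · have e : ∑ i, ‖B k i‖ ^ 2 = ‖v k‖ ^ 2 := by rw [EuclideanSpace.norm_sq_eq]
    rw [hn, e]
    have e2 : v k = (W k).starProjection (v k) + g k := by simp [g]
    have e3 := norm_add_sq_eq_norm_sq_add_norm_sq_of_inner_eq_zero (𝕜 := 𝕜)
      ((W k).starProjection (v k)) (g k)
      (Submodule.inner_right_of_mem_orthogonal ((W k).starProjection_apply_mem (v k)) (horth k))
    rw [← e2] at e3
    nlinarith [mul_self_nonneg ‖(W k).starProjection (v k)‖]
  · have hdet : T.det = 1 := by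
      rw [Matrix.det_of_isLowerTriangular T fun k l h => hT0 k l h]
      simp [hT1]
    have hd : (T * B) * (T * B)ᴴ = Matrix.diagonal fun k => ((‖g k‖ ^ 2 : ℝ) : 𝕜) := by
      ext k l
      have e : ((T * B) * (T * B)ᴴ) k l = inner 𝕜 (g l) (g k) := by
        rw [Matrix.mul_apply, PiLp.inner_apply]
        refine Finset.sum_congr rfl fun i _ => ?_
        rw [Matrix.conjTranspose_apply, hg, hg]
        simp
      rw [e]
      by_cases h : k = l
      · subst h
        rw [Matrix.diagonal_apply_eq, inner_self_eq_norm_sq_to_K]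
        push_cast
        rfl
      · rw [Matrix.diagonal_apply_ne _ h, ho l k (Ne.symm h)]
    have e : ((T * B) * (T * B)ᴴ).det = (B * Bᴴ).det := by
      rw [Matrix.conjTranspose_mul, Matrix.mul_assoc, ← Matrix.mul_assoc B, Matrix.det_mul,
        Matrix.det_mul, Matrix.det_conjTranspose, hdet]
      simp
    rw [← e, hd, Matrix.det_diagonal]
    simp only [hn]
    push_cast
    rfl

end core

theorem sHad : SHad := by
  intro κ ι _ _ _ B
  classical
  let e := Fintype.equivFin κ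
  obtain ⟨T, -, -, h1, h2⟩ := exists_tri (B.submatrix e.symm id)
  have e1 : (B.submatrix e.symm id) * (B.submatrix e.symm id)ᴴ
      = (B * Bᴴ).submatrix e.symm e.symm := by
    ext k l
    simp [Matrix.mul_apply]
  rw [e1, Matrix.det_submatrix_equiv_self] at h2
  rw [h2, ← e.symm.prod_comp]
  have h0 : ∀ k, 0 ≤ ∑ i, ‖(T * B.submatrix e.symm id) k i‖ ^ 2 := fun k =>
    Finset.sum_nonneg fun i _ => by positivity
  rw [RCLike.norm_ofReal, abs_of_nonneg (Finset.prod_nonneg fun k _ => h0 k)]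
  exact Finset.prod_le_prod (fun k _ => h0 k) fun k _ => h1 k

theorem sGram : SGram := by
  intro κ ι _ _ _ A μ hμ h
  obtain ⟨T, h1, h2, -, h3⟩ := exists_tri A
  rw [Matrix.conjTranspose_eq_transpose_of_trivial] at h3
  rw [h3, ← Finset.card_univ, ← Finset.prod_const]
  refine Finset.prod_le_prod (fun _ _ => hμ) fun k _ => ?_
  simpa [Matrix.mul_apply] using h k (T k) (h1 k) (h2 k)

end Pool.Agent.MP_670f9a_nt.H18
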